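import Pool.Agent.Results.MP_0f91f8_co.GeneralisedPolynomialColourings
import Pool.Agent.R546.PY.Final

set_option autoImplicit false

/-!
Multiplicative Bohr sets and generalised polynomials together: if `f` is a completely multiplicative
map to a compact abelian group, `U` is an open set which contains a value of `f` and `g` are
generalised polynomials, then there are arbitrarily large Pythagorean triples such that the three
values of `f` are in `U` and the signs of all the `g i` are the same at the three members.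
-/

namespace Pool.Agent.Results.MP_0f91f8_co.BohrAndGeneralisedPolynomials

open Filter Topology
open Pool.Agent.Results.MP_0f91f8_co.GeneralisedPolynomialColourings

section

variable {H : Type*} [AddCommGroup H] [TopologicalSpace H] [IsTopologicalAddGroup H]
  [CompactSpace H]

/-- in a compact group a difference of two late members of a sequence is small -/
theorem small_difference (F : ℕ → H) (W : Set H) (hW : W ∈ 𝓝 (0 : H)) :
    ∃ i j : ℕ, i < j ∧ F j - F i ∈ W := by
  obtain ⟨x, hx⟩ := exists_clusterPt_of_compactSpace (map F atTop)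
  have hc : Tendsto (fun q : H × H => q.1 - q.2) (𝓝 x ×ˢ 𝓝 x) (𝓝 (x - x)) := by
    rw [← nhds_prod_eq]
    exact (continuous_fst.sub continuous_snd).tendsto (x, x)
  rw [sub_self] at hc
  have h1 := hc hW
  rw [Filter.mem_map, mem_prod_self_iff] at h1
  obtain ⟨V, hV, hVW⟩ := h1
  have hx' : MapClusterPt x atTop F := hx
  have hf := (mapClusterPt_iff_frequently.1 hx') V hV
  obtain ⟨i, hi⟩ := hf.exists
  obtain ⟨j, hij, hj⟩ := (frequently_atTop.1 hf) (i + 1)
  have hmem : (F j, F i) ∈ (fun q : H × H => q.1 - q.2) ⁻¹' W := hVW (Set.mk_mem_prod hj hi)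
  exact ⟨i, j, by omega, hmem⟩

/-- simultaneous dilation: `f k` is close to zero, and the generalised polynomials have constant
signs at the multiples `k a`, `a ≤ M` -/
theorem dilates_bohr (f : ℕ → H) (hf : ∀ m n : ℕ, 0 < m → 0 < n → f (m * n) = f m + f n)
    {s : ℕ} {g : Fin s → ℕ → ℝ} (hg : ∀ i, GenPoly (g i)) (W : Set H) (hW : W ∈ 𝓝 (0 : H))
    (M K : ℕ) :
    ∃ k : ℕ, K < k ∧ f k ∈ W ∧ ∀ a b : ℕ, 1 ≤ a → a ≤ M → 1 ≤ b → b ≤ M →
      SameSigns g (k * a) (k * b) := by
  choose κ hκ1 hκ2 using fun N : ℕ => dilates hg (M * N) K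
  -- products of the first dilation factors
  let P : ℕ → ℕ := fun n => Nat.rec 1 (fun _ p => p * κ p) n
  have hP1 : ∀ n, P (n + 1) = P n * κ (P n) := fun n => rfl
  have hPpos : ∀ n, 0 < P n := by
    intro n
    induction n with
    | zero => exact Nat.one_pos
    | succ n ih =>
      rw [hP1]
      have := hκ1 (P n)
      exact Nat.mul_pos ih (by omega)
  obtain ⟨i, j, hij, hW'⟩ := small_difference (fun n => f (P n)) W hW
  -- block products
  have key : ∀ d : ℕ, ∃ Q : ℕ, P (i + (d + 1)) = P i * Q ∧ K < Q ∧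
      ∀ a b : ℕ, 1 ≤ a → a ≤ M → 1 ≤ b → b ≤ M → SameSigns g (Q * a) (Q * b) := by
    intro d
    induction d with
    | zero =>
      refine ⟨κ (P i), hP1 i, hκ1 _, fun a b ha ha' hb hb' => hκ2 _ a b ha ?_ hb ?_⟩
      · exact le_trans ha' (Nat.le_mul_of_pos_right _ (hPpos i))
      · exact le_trans hb' (Nat.le_mul_of_pos_right _ (hPpos i))
    | succ d ih =>
      obtain ⟨Q, hQ, hKQ, -⟩ := ih
      have hQpos : 0 < Q := by omega
      have hQle : Q ≤ P (i + (d + 1)) := by
        rw [hQ]; exact Nat.le_mul_of_pos_left _ (hPpos i)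
      refine ⟨κ (P (i + (d + 1))) * Q, ?_, ?_, fun a b ha ha' hb hb' => ?_⟩
      · rw [show i + (d + 1 + 1) = (i + (d + 1)) + 1 by ring, hP1]
        conv_lhs => rw [mul_comm, hQ]
        rw [hQ]; ring
      · exact lt_of_lt_of_le (hκ1 _) (Nat.le_mul_of_pos_right _ hQpos)
      · have h := hκ2 (P (i + (d + 1))) (Q * a) (Q * b) (Nat.mul_pos hQpos ha)
          (by rw [mul_comm M]; exact Nat.mul_le_mul hQle ha') (Nat.mul_pos hQpos hb)
          (by rw [mul_comm M]; exact Nat.mul_le_mul hQle hb')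
        rwa [← mul_assoc, ← mul_assoc] at h
  obtain ⟨d, hd⟩ : ∃ d, j = i + (d + 1) := ⟨j - i - 1, by omega⟩
  obtain ⟨Q, hQ, hKQ, hQs⟩ := key d
  refine ⟨Q, hKQ, ?_, hQs⟩
  have h1 : f (P j) - f (P i) = f Q := by
    rw [hd, hQ, hf _ _ (hPpos i) (by omega)]
    abel
  have h2 : f (P j) - f (P i) ∈ W := hW'
  rwa [h1] at h2

end

/-- Let `f` be a completely multiplicative map from the positive integers to a compact abelian
topological group (written additively), let `g` be finitely many generalised polynomials, and let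
`U` be an open set which contains a value `f n₀`.  Let `c` be any colouring which, on the integers
`n` with `f n ∈ U`, depends only on the signs of the `g i n`.  Then for every `K` there are
`x, y, z > K` with `x ^ 2 + y ^ 2 = z ^ 2`, with `f x, f y, f z ∈ U`, with the same signs of the
generalised polynomials and with the same colour. -/
theorem result {H : Type*} [AddCommGroup H] [TopologicalSpace H] [IsTopologicalAddGroup H]
    [CompactSpace H] (f : ℕ → H)
    (hf : ∀ m n : ℕ, 0 < m → 0 < n → f (m * n) = f m + f n)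
    (s : ℕ) (g : Fin s → ℕ → ℝ) (hg : ∀ i, GenPoly (g i))
    (U : Set H) (hU : IsOpen U) (n₀ : ℕ) (hn₀ : 0 < n₀) (hfU : f n₀ ∈ U)
    {κ : Type*} (c : ℕ → κ)
    (hc : ∀ m n : ℕ, 0 < m → 0 < n → f m ∈ U → f n ∈ U → SameSigns g m n → c m = c n) (K : ℕ) :
    ∃ x y z : ℕ, K < x ∧ K < y ∧ K < z ∧ x ^ 2 + y ^ 2 = z ^ 2 ∧ f x ∈ U ∧ f y ∈ U ∧ f z ∈ U ∧
      SameSigns g x y ∧ SameSigns g y z ∧ c x = c y ∧ c y = c z := by
  -- a smaller open set
  have hadd : Tendsto (fun q : H × H => q.1 + q.2) (𝓝 (f n₀) ×ˢ 𝓝 (0 : H)) (𝓝 (f n₀ + 0)) := by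
    rw [← nhds_prod_eq]
    exact continuous_add.tendsto (f n₀, 0)
  rw [add_zero] at hadd
  have h1 := hadd (hU.mem_nhds hfU)
  rw [Filter.mem_map, mem_prod_iff] at h1
  obtain ⟨U1, hU1, W, hW, hUW⟩ := h1
  obtain ⟨U0, hU0s, hU0, hnU0⟩ := mem_nhds_iff.1 hU1
  obtain ⟨x, y, z, hx, hy, hz, hxyz, hfx, hfy, hfz⟩ :=
    Pool.Agent.R546.PY.main f hf U0 hU0 n₀ hn₀ hnU0 0
  obtain ⟨k, hk, hkW, hks⟩ := dilates_bohr f hf hg W hW (x + y + z) K
  have hk0 : 0 < k := by omega
  have hmem : ∀ t : ℕ, 0 < t → f t ∈ U0 → f (k * t) ∈ U := by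
    intro t ht hft
    rw [hf k t hk0 ht, add_comm]
    exact hUW (⟨hU0s hft, hkW⟩ : (f t, f k) ∈ U1 ×ˢ W)
  have s1 := hks x y hx (by omega) hy (by omega)
  have s2 := hks y z hy (by omega) hz (by omega)
  have ux := hmem x hx hfx
  have uy := hmem y hy hfy
  have uz := hmem z hz hfz
  have px := Nat.mul_pos hk0 hx
  have py := Nat.mul_pos hk0 hy
  have pz := Nat.mul_pos hk0 hz
  refine ⟨k * x, k * y, k * z, ?_, ?_, ?_, ?_, ux, uy, uz, s1, s2,
    hc _ _ px py ux uy s1, hc _ _ py pz uy uz s2⟩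
  · exact lt_of_lt_of_le hk (Nat.le_mul_of_pos_right k hx)
  · exact lt_of_lt_of_le hk (Nat.le_mul_of_pos_right k hy)
  · exact lt_of_lt_of_le hk (Nat.le_mul_of_pos_right k hz)
  · rw [mul_pow, mul_pow, mul_pow, ← hxyz]; ring

end Pool.Agent.Results.MP_0f91f8_co.BohrAndGeneralisedPolynomials
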