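import Pool.Agent.R546.PY.Final

/-!
# Pythagorean triples in multiplicative Bohr sets

Colourings of the positive integers given by completely multiplicative maps into compact abelian
groups: every open set which contains a value of the map contains the three values at arbitrarily
large Pythagorean triples.

Idea of the proof.  Extend `f` to the nonzero rationals.  By van der Waerden's theorem there are
ultrafilters of rationals `t` for which the limit of `f (t + b)` does not depend on the rational `b`;
after scaling, this limit is `f 2`.  If `s` is generic with respect to `t`, then
`u = (1 - t s) / (t + s)` is generic again with the same limit as `t`, while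
`1 + u ^ 2 = (1 + t ^ 2) (1 + s ^ 2) / (t + s) ^ 2` shows that the defects `f (1 + t ^ 2) - 2 f t` of
`t` and `s` are added.  By compactness some multiple of a defect is close to `0`, and then `2 t`,
`t ^ 2 - 1` and `t ^ 2 + 1` have nearly the same value.
-/

set_option autoImplicit false

namespace Pool.Agent.Results.MP_0f91f8_co.MultiplicativeBohrSets

/-- Let `f` be a completely multiplicative map from the positive integers to a compact abelian
topological group (written additively; for instance a product of any number of completely
multiplicative functions with values in the unit circle), and let `U` be an open set which contains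
a value `f n₀`.  Then there are arbitrarily large positive integers `x, y, z` with
`x ^ 2 + y ^ 2 = z ^ 2` and `f x, f y, f z ∈ U`. -/
theorem result {H : Type*} [AddCommGroup H] [TopologicalSpace H] [IsTopologicalAddGroup H]
    [CompactSpace H] (f : ℕ → H)
    (hf : ∀ m n : ℕ, 0 < m → 0 < n → f (m * n) = f m + f n)
    (U : Set H) (hU : IsOpen U) (n₀ : ℕ) (hn₀ : 0 < n₀) (hfU : f n₀ ∈ U) (K : ℕ) :
    ∃ x y z : ℕ, K < x ∧ K < y ∧ K < z ∧ x ^ 2 + y ^ 2 = z ^ 2 ∧ f x ∈ U ∧ f y ∈ U ∧ f z ∈ U :=
  Pool.Agent.R546.PY.main f hf U hU n₀ hn₀ hfU K

end Pool.Agent.Results.MP_0f91f8_co.MultiplicativeBohrSets
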