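import Mathlib
import Pool.Agent.R329.VC.Robust
import Pool.Agent.Results.MP_0f91f8_co.GeneralisedPolynomialColourings

/-!
# Pythagorean triples in tame colourings

A set `A` of positive integers *shatters* a set `M` if for all finite sets `T ⊆ S ⊆ M` there is
`m ≥ 1` with `m n ∈ A ↔ n ∈ T` for all `n ∈ S`. We prove that every finite colouring of the positive
integers none of whose classes shatters an infinite set has monochromatic Pythagorean triples. This
contains the colourings whose classes have finite VC dimension with respect to dilations (no class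
shatters arbitrarily large finite sets). The conclusion remains true if the colours are changed
arbitrarily on a set `E` with `μ(E) < 1 / (3 r)`, where `r` is the number of colours and `μ` is a
finitely additive probability measure on the positive integers which is invariant under dilations.

More generally, let `A_1, …, A_k` be *tame* sets: sets which do not shatter any infinite set, sets
`{n : φ(n) ≥ 0}`, where `φ` is a real function whose dilates span a space of finite dimension (for
instance a polynomial in completely additive real functions and in the real and imaginary parts of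
completely multiplicative complex functions), and the sets obtained from these by complements and
finite unions. Let `f` be a completely multiplicative map from the positive integers to a compact
abelian group and `U` an open set which contains a value of `f`. Let `T` be multiplicatively thick
(`T` contains a dilate of every finite set). Then there are arbitrarily large `x, y, z ∈ T` with
`x ^ 2 + y ^ 2 = z ^ 2` and `f(x), f(y), f(z) ∈ U` which lie in the same sets `A_i`. If finitely
many generalised polynomials `g_j` are given, there are such `x, y, z` (with `T` the set of all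
positive integers) for which moreover the signs of all `g_j` are the same at `x`, `y`, `z`. A tame
set which is multiplicatively piecewise syndetic contains arbitrarily large Pythagorean triples.

Method: let `μ` be an invariant finitely additive probability measure. If the dilates `A / m` of a
set `A` are not totally bounded for the pseudometric `μ(B ∆ C)`, there is a separated sequence of
dilates `E_i`. Let `h` be a weak limit of the `E_i`. The measure `ν` with density `h (1 - h)` is not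
zero, and if `ν(C) > 0` then `ν(C ∩ E_i) > 0` and `ν(C \ E_i) > 0` for many `i`; hence there is an
infinite set `M` of indices all of whose finite Boolean combinations have positive measure, and `A`
shatters an infinite set. (All this is done with iterated limits of finitely additive measures.) So
for tame `A` the dilates are totally bounded, and `ρ(m, n) = μ(A / m ∆ A / n)` is a totally bounded
pseudometric which is invariant under multiplication, that is, it is given by a completely
multiplicative map to a compact abelian group, and by the theorem of `MultiplicativeBohrSets` there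
are Pythagorean triples with `ρ(1, x), ρ(1, y), ρ(1, z) < μ(A) / 3`; so `A, A / x, A / y, A / z`
have a common element `m`, and `m x, m y, m z ∈ A`.
-/

set_option autoImplicit false

open Topology

namespace Pool.Agent.Results.MP_0f91f8_co.NoInfiniteShattering

open Pool.Agent.Results.MP_0f91f8_co.GeneralisedPolynomialColourings (GenPoly SameSigns dilates)

/-- The dilate `A / m = {n : m n ∈ A}`. -/
def dilate (m : ℕ) (A : Set ℕ) : Set ℕ := {n | m * n ∈ A}

/-- A finitely additive probability measure on the positive integers, invariant under dilations. -/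
structure InvariantMean (μ : Set ℕ → ℝ) : Prop where
  nonneg : ∀ A, 0 ≤ μ A
  univ : μ Set.univ = 1
  add : ∀ A B, Disjoint A B → μ (A ∪ B) = μ A + μ B
  zero : μ {0} = 0
  inv : ∀ m : ℕ, 0 < m → ∀ A, μ (dilate m A) = μ A

/-- The dilates of `A` are totally bounded for the pseudometric `μ (B ∆ C)`. -/
def TotallyBoundedDilates (μ : Set ℕ → ℝ) (A : Set ℕ) : Prop := ∀ ε : ℝ, 0 < ε →
  ∃ M : Finset ℕ, ∀ n : ℕ, 0 < n → ∃ m ∈ M, 0 < m ∧ μ (symmDiff (dilate m A) (dilate n A)) < ε

/-- `A` has VC dimension at most `d` with respect to dilations. -/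
def VCDimLe (d : ℕ) (A : Set ℕ) : Prop := ∀ S : Finset ℕ,
  (∀ T : Finset ℕ, T ⊆ S → ∃ m : ℕ, 0 < m ∧ ∀ n ∈ S, (m * n ∈ A ↔ n ∈ T)) → S.card ≤ d

/-- `A` shatters no infinite set `M` of positive integers: there are finite sets `T ⊆ S ⊆ M` such
that for no `m ≥ 1` one has `m n ∈ A ↔ n ∈ T` for all `n ∈ S`. -/
def ShattersNoInfiniteSet (A : Set ℕ) : Prop := ∀ M : Set ℕ, M.Infinite → (∀ n ∈ M, 0 < n) →
  ∃ S T : Finset ℕ, (∀ n ∈ S, n ∈ M) ∧ T ⊆ S ∧
    ∀ m : ℕ, 0 < m → ¬ ∀ n ∈ S, (m * n ∈ A ↔ n ∈ T)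

/-- The same with measures: there is no infinite set `M` of positive integers such that for all
finite sets `T ⊆ S ⊆ M` the set of the `m` with `m n ∈ A ↔ n ∈ T` for all `n ∈ S` has positive
measure. -/
def ShattersNoInfiniteSetFor (μ : Set ℕ → ℝ) (A : Set ℕ) : Prop :=
  ∀ M : Set ℕ, M.Infinite → (∀ n ∈ M, 0 < n) → ∃ S T : Finset ℕ, (∀ n ∈ S, n ∈ M) ∧ T ⊆ S ∧
    μ {m | ∀ n ∈ S, (m * n ∈ A ↔ n ∈ T)} = 0

/-- The dilates of `φ` (on the positive integers) lie in a space of finite dimension. -/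
def FiniteDimensional (φ : ℕ → ℝ) : Prop := ∃ (ι : Type) (_ : Fintype ι) (u : ι → ℕ → ℝ),
  ∀ m : ℕ, 0 < m → ∃ a : ι → ℝ, ∀ n : ℕ, 0 < n → φ (m * n) = ∑ j, a j * u j n

/-- Tame sets: generated by sets which shatter no infinite set and by sets of nonnegativity of
functions whose dilates span a space of finite dimension, under complements and finite unions. -/
inductive Tame : Set ℕ → Prop
  | ns (A : Set ℕ) (h : ShattersNoInfiniteSet A) : Tame A
  | sign (φ : ℕ → ℝ) (h : FiniteDimensional φ) : Tame {n | 0 ≤ φ n}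
  | compl (A : Set ℕ) (h : Tame A) : Tame Aᶜ
  | union (A B : Set ℕ) (hA : Tame A) (hB : Tame B) : Tame (A ∪ B)

/-- `T` contains a dilate of every finite set of positive integers. -/
def Thick (T : Set ℕ) : Prop := ∀ K : ℕ, ∃ m : ℕ, 0 < m ∧ ∀ n : ℕ, 0 < n → n ≤ K → m * n ∈ T

open Pool.Agent.R329.VC in
lemma mean_iff {μ : Set ℕ → ℝ} (h : InvariantMean μ) : IsInvariantMean μ :=
  { nonneg := h.nonneg, univ := h.univ, add := h.add, zero := h.zero, inv := h.inv }

lemma tame_iff {A : Set ℕ} (h : Tame A) : Pool.Agent.R329.VC.Tame A := by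
  induction h with
  | ns A h => exact .nip A h
  | sign φ h => exact .sign φ h
  | compl A _ ih => exact .compl A ih
  | union A B _ _ ihA ihB => exact .union A B ihA ihB

/-- a thick set on which generalised polynomials have constant signs -/
lemma thick_signs {s : ℕ} {g : Fin s → ℕ → ℝ} (hg : ∀ i, GenPoly (g i)) :
    ∃ σ : Fin s → SignType, Thick {n | ∀ i, SignType.sign (g i n) = σ i} := by
  choose k hk0 hk using fun M : ℕ => dilates hg (M + 1) 0
  have hfreq : ∃ᶠ M : ℕ in Filter.atTop,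
      ∃ σ : Fin s → SignType, (fun i => SignType.sign (g i (k M * 1))) = σ :=
    Filter.Frequently.of_forall fun M => ⟨_, rfl⟩
  obtain ⟨σ, hσ⟩ : ∃ σ : Fin s → SignType, ∃ᶠ M : ℕ in Filter.atTop,
      (fun i => SignType.sign (g i (k M * 1))) = σ := by
    by_contra hcon
    push Not at hcon
    have h1 : ∀ᶠ M : ℕ in Filter.atTop, ∀ σ : Fin s → SignType,
        (fun i => SignType.sign (g i (k M * 1))) ≠ σ := by
      rw [Filter.eventually_all]
      intro σ
      exact Filter.not_frequently.mp (by simpa using hcon σ)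
    obtain ⟨M, hM⟩ := h1.exists
    exact hM _ rfl
  refine ⟨σ, fun K => ?_⟩
  obtain ⟨M, hM, hMσ⟩ := (Filter.frequently_atTop.mp hσ) K
  refine ⟨k M, hk0 M, fun n hn hnK i => ?_⟩
  have h1 := hk M n 1 hn (by omega) le_rfl (by omega) i
  rw [h1]
  exact congrFun hMσ i

open Pool.Agent.R329.VC in
theorem result.{u} :
    -- (1) finite colourings whose classes shatter no infinite set
    ((∀ (r : ℕ) (c : ℕ → Fin r), (∀ i, ShattersNoInfiniteSet {n | c n = i}) → ∀ K : ℕ,
      ∃ x y z : ℕ, K < x ∧ K < y ∧ K < z ∧ x ^ 2 + y ^ 2 = z ^ 2 ∧ c x = c y ∧ c y = c z) ∧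
    (∀ (d : ℕ) (A : Set ℕ), VCDimLe d A → ShattersNoInfiniteSet A) ∧
    -- colourings which agree with such colourings outside a small set
    (∀ μ : Set ℕ → ℝ, InvariantMean μ → ∀ (r : ℕ) (c c' : ℕ → Fin r),
      (∀ i, Tame {n | c' n = i} ∨ ShattersNoInfiniteSetFor μ {n | c' n = i}) →
      μ {n | c n ≠ c' n} < 1 / (3 * r) → ∀ K : ℕ,
      ∃ x y z : ℕ, K < x ∧ K < y ∧ K < z ∧ x ^ 2 + y ^ 2 = z ^ 2 ∧ c x = c y ∧ c y = c z)) ∧
    -- (2) tame sets, multiplicative Bohr sets and thick sets
    (∀ {H : Type u} [AddCommGroup H] [TopologicalSpace H] [IsTopologicalAddGroup H]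
      [CompactSpace H] (f : ℕ → H), (∀ m n : ℕ, 0 < m → 0 < n → f (m * n) = f m + f n) →
      ∀ U : Set H, IsOpen U → ∀ n₀ : ℕ, 0 < n₀ → f n₀ ∈ U →
      ∀ (k : ℕ) (A : Fin k → Set ℕ), (∀ i, Tame (A i)) → ∀ K : ℕ,
      (∀ T : Set ℕ, Thick T → ∃ x y z : ℕ, x ∈ T ∧ y ∈ T ∧ z ∈ T ∧ K < x ∧ K < y ∧ K < z ∧
        x ^ 2 + y ^ 2 = z ^ 2 ∧ (f x ∈ U ∧ f y ∈ U ∧ f z ∈ U) ∧
        ∀ i, (x ∈ A i ↔ y ∈ A i) ∧ (y ∈ A i ↔ z ∈ A i)) ∧
      ∀ (s : ℕ) (g : Fin s → ℕ → ℝ), (∀ i, GenPoly (g i)) → ∃ x y z : ℕ,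
        SameSigns g x y ∧ SameSigns g y z ∧ K < x ∧ K < y ∧ K < z ∧
        x ^ 2 + y ^ 2 = z ^ 2 ∧ (f x ∈ U ∧ f y ∈ U ∧ f z ∈ U) ∧
        ∀ i, (x ∈ A i ↔ y ∈ A i) ∧ (y ∈ A i ↔ z ∈ A i)) ∧
    -- (3) piecewise syndetic tame sets
    (∀ (A : Set ℕ), Tame A → ∀ F : Finset ℕ, (∀ k ∈ F, 0 < k) →
      Thick (⋃ k ∈ F, dilate k A) → ∀ K : ℕ,
      ∃ x y z : ℕ, x ∈ A ∧ y ∈ A ∧ z ∈ A ∧ K < x ∧ K < y ∧ K < z ∧ x ^ 2 + y ^ 2 = z ^ 2) ∧
    -- (4) sets close to sets with totally bounded dilates
    (∀ {H : Type u} [AddCommGroup H] [TopologicalSpace H] [IsTopologicalAddGroup H]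
      [CompactSpace H] (f : ℕ → H), (∀ m n : ℕ, 0 < m → 0 < n → f (m * n) = f m + f n) →
      ∀ V ∈ 𝓝 (0 : H), ∀ μ : Set ℕ → ℝ, InvariantMean μ → ∀ (k : ℕ) (A C : Fin k → Set ℕ),
      (∀ i, TotallyBoundedDilates μ (A i)) → (∀ i, μ (A i \ C i) < μ (A i) / 3) → ∀ K : ℕ,
      ∃ x y z : ℕ, K < x ∧ K < y ∧ K < z ∧ x ^ 2 + y ^ 2 = z ^ 2 ∧
        (f x ∈ V ∧ f y ∈ V ∧ f z ∈ V) ∧
        ∀ i, 0 < μ {m | m ∈ A i ∧ x * m ∈ C i ∧ y * m ∈ C i ∧ z * m ∈ C i}) ∧
    -- (5) sets which have totally bounded dilates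
    (∀ μ : Set ℕ → ℝ, InvariantMean μ → ∀ A : Set ℕ, Tame A ∨ ShattersNoInfiniteSetFor μ A →
      TotallyBoundedDilates μ A) ∧
    -- (6) functions whose dilates span a space of finite dimension
    ((∀ c : ℝ, FiniteDimensional (fun _ => c)) ∧
      (∀ φ ψ : ℕ → ℝ, FiniteDimensional φ → FiniteDimensional ψ →
        FiniteDimensional (fun n => φ n + ψ n) ∧ FiniteDimensional (fun n => φ n * ψ n)) ∧
      (∀ g : ℕ → ℝ, (∀ m n : ℕ, 0 < m → 0 < n → g (m * n) = g m + g n) → FiniteDimensional g) ∧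
      (∀ χ : ℕ → ℂ, (∀ m n : ℕ, 0 < m → 0 < n → χ (m * n) = χ m * χ n) →
        FiniteDimensional (fun n => (χ n).re) ∧ FiniteDimensional (fun n => (χ n).im))) := by
  have h5 : ∀ μ : Set ℕ → ℝ, InvariantMean μ → ∀ A : Set ℕ,
      Tame A ∨ ShattersNoInfiniteSetFor μ A → TotallyBoundedDilates μ A := by
    intro μ hμ A hA
    rcases hA with hA | hA
    · exact (tame_iff hA).totBdd (mean_iff hμ)
    · exact totBdd_of_nipm (mean_iff hμ).toFinAdd hμ.zero hA
  refine ⟨⟨?_, ?_, ?_⟩, ?_, ?_, ?_, h5, ⟨FD.const, fun φ ψ hφ hψ => ⟨FD.add hφ hψ, FD.mul hφ hψ⟩,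
    fun g hg => FD.of_additive hg, fun χ hχ => ⟨FD.re hχ, FD.im hχ⟩⟩⟩
  · intro r c hc K
    have hT : Pool.Agent.R329.VC.Thick Set.univ := fun K => ⟨1, one_pos, fun _ _ _ => trivial⟩
    obtain ⟨x, y, z, -, -, -, hx, hy, hz, hxyz, h⟩ := colour Set.univ hT r (fun i => {n | c n = i})
      (fun i => .nip _ (hc i)) K
    refine ⟨x, y, z, hx, hy, hz, hxyz, ?_, ?_⟩
    · exact ((h (c x)).1.mp rfl).symm
    · exact ((h (c y)).2.mp rfl).symm
  · intro d A hA
    exact NIP.of_vcDim hA
  · intro μ hμ r c c' hc' hcc K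
    have hμ' := mean_iff hμ
    have hr : 0 < r := by
      rcases Nat.eq_zero_or_pos r with rfl | h
      · exact (c 0).elim0
      · exact h
    have hr' : (0 : ℝ) < r := by exact_mod_cast hr
    obtain ⟨x, y, z, m, hm, hx, hy, hz, hxyz, -, h1, h2⟩ := colour_robust (H := PUnit.{1}) hμ'
      (fun _ => 0) (fun _ _ _ _ => by simp) (V := Set.univ) Filter.univ_mem r c c'
      (fun i => h5 μ hμ _ (hc' i)) (by
        rw [lt_div_iff₀ (by positivity)] at hcc
        linarith) K
    refine ⟨x * m, y * m, z * m, ?_, ?_, ?_, ?_, h1, h2⟩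
    · exact lt_of_lt_of_le hx (Nat.le_mul_of_pos_right _ hm)
    · exact lt_of_lt_of_le hy (Nat.le_mul_of_pos_right _ hm)
    · exact lt_of_lt_of_le hz (Nat.le_mul_of_pos_right _ hm)
    · rw [mul_pow, mul_pow, mul_pow, ← add_mul, hxyz]
  · intro H _ _ _ _ f hf U hU n₀ hn₀ hfU k A hA K
    refine ⟨fun T hT => colour2 T hT f hf U hU n₀ hn₀ hfU k A (fun i => tame_iff (hA i)) K, ?_⟩
    intro s g hg
    obtain ⟨σ, hσ⟩ := thick_signs hg
    obtain ⟨x, y, z, hx, hy, hz, h⟩ := colour2 _ hσ f hf U hU n₀ hn₀ hfU k A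
      (fun i => tame_iff (hA i)) K
    exact ⟨x, y, z, fun i => (hx i).trans (hy i).symm, fun i => (hy i).trans (hz i).symm, h⟩
  · intro A hA F hF hT K
    obtain ⟨μ, hμ, hμT⟩ := meanStm _ hT
    have hf := hμ.toFinAdd
    have hpos : 0 < μ A := by
      by_contra hcon
      have h1 := hf.iUnion_le F (fun k => dilate k A)
      rw [hμT] at h1
      have h2 : ∑ k ∈ F, μ (dilate k A) ≤ 0 := by
        refine Finset.sum_nonpos fun k hk => ?_
        have h3 : μ (dilate k A) = μ A := hμ.inv k (hF k hk) A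
        rw [h3]
        exact not_lt.mp hcon
      linarith
    obtain ⟨x, y, z, hx, hy, hz, hxyz, h⟩ := many hμ (ι := Unit) (fun _ => A)
      (fun _ => (tame_iff hA).totBdd hμ) (fun _ => hpos) K
    have hW := h ()
    obtain ⟨m, hm, hm0⟩ : ∃ m, (m ∈ A ∧ x * m ∈ A ∧ y * m ∈ A ∧ z * m ∈ A) ∧ 0 < m := by
      by_contra hcon
      push Not at hcon
      have hsub : {m | m ∈ A ∧ x * m ∈ A ∧ y * m ∈ A ∧ z * m ∈ A} ⊆ {0} := by
        intro m hm
        have := hcon m hm
        exact Nat.le_zero.mp this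
      have h1 := hf.mono hsub
      rw [hμ.zero] at h1
      linarith
    refine ⟨x * m, y * m, z * m, hm.2.1, hm.2.2.1, hm.2.2.2, ?_, ?_, ?_, ?_⟩
    · exact lt_of_lt_of_le hx (Nat.le_mul_of_pos_right _ hm0)
    · exact lt_of_lt_of_le hy (Nat.le_mul_of_pos_right _ hm0)
    · exact lt_of_lt_of_le hz (Nat.le_mul_of_pos_right _ hm0)
    · rw [mul_pow, mul_pow, mul_pow, ← add_mul, hxyz]
  · intro H _ _ _ _ f hf V hV μ hμ k A C hA hpos K
    exact robust (mean_iff hμ) f hf hV A C hA (fun i => by linarith [hpos i]) K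

end Pool.Agent.Results.MP_0f91f8_co.NoInfiniteShattering
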